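import Pool.Agent.K1H90.NV.Tw

/-!
# The small first letters
-/

set_option autoImplicit false

namespace Pool.Agent.K1H90.NV

open Finset Pool.Agent.TH507.WG
open Pool.Agent.Y760.ZG (hr hr_nil hr_cons cl)

/-- **expansion**: the small first letters of a word -/
lemma expT (r : List (ℕ × ℕ)) (hr' : HP r) (β : List ℕ+) : ∃ Y : ℕ → ℕ → ℝ,
    (∀ K, Y β.length K = ((cf 1 r K : ℚ) : ℝ)) ∧
    ∀ K m, 1 ≤ K → K + 1 ≤ m → ((T 1 (Z β ++ r) m K : ℚ) : ℝ) =
      ∑ j ∈ range (β.length + 1), hr (cl (β.take j)) m * Y j K := by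
  induction β with
  | nil =>
    refine ⟨fun _ K => ((cf 1 r K : ℚ) : ℝ), fun K => rfl, fun K m hK hm => ?_⟩
    rw [Z_nil, List.nil_append, T_stab 1 r hr' hm, List.length_nil, zero_add, sum_range_one,
      List.take_zero]
    show _ = hr [] m * _
    rw [hr_nil, one_mul]
    rfl
  | cons b β ih =>
    obtain ⟨Y, hY1, hY2⟩ := ih
    refine ⟨fun j K => match j with
      | 0 => ∑ j ∈ Ico 1 (K + 1), (((T 1 (Z β ++ r) j K : ℚ) : ℝ) -
          ∑ i ∈ range (β.length + 1), hr (cl (β.take i)) j * Y i K) / (j : ℝ) ^ (b : ℕ)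
      | i + 1 => Y i K, fun K => ?_, fun K m hK hm => ?_⟩
    · rw [List.length_cons]
      exact hY1 K
    · have h1 : ((T 1 (Z (b :: β) ++ r) m K : ℚ) : ℝ) =
          ∑ j ∈ Ico 1 m, ((T 1 (Z β ++ r) j K : ℚ) : ℝ) / (j : ℝ) ^ (b : ℕ) := by
        rw [Z_cons, List.cons_append, T_cons, lo_one]
        push_cast
        refine sum_congr rfl fun j _ => ?_
        rw [pow_zero, if_pos (one_dvd _), Nat.div_one]
        push_cast
        rfl
      have h2 : ∑ j ∈ Ico 1 m, ((T 1 (Z β ++ r) j K : ℚ) : ℝ) / (j : ℝ) ^ (b : ℕ) =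
          ∑ j ∈ Ico 1 m, (((T 1 (Z β ++ r) j K : ℚ) : ℝ) -
            ∑ i ∈ range (β.length + 1), hr (cl (β.take i)) j * Y i K) / (j : ℝ) ^ (b : ℕ) +
          ∑ j ∈ Ico 1 m, (∑ i ∈ range (β.length + 1), hr (cl (β.take i)) j * Y i K) /
            (j : ℝ) ^ (b : ℕ) := by
        rw [← sum_add_distrib]
        refine sum_congr rfl fun j _ => ?_
        rw [← add_div, sub_add_cancel]
      have h3 : ∑ j ∈ Ico 1 m, (((T 1 (Z β ++ r) j K : ℚ) : ℝ) -
            ∑ i ∈ range (β.length + 1), hr (cl (β.take i)) j * Y i K) / (j : ℝ) ^ (b : ℕ) =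
          ∑ j ∈ Ico 1 (K + 1), (((T 1 (Z β ++ r) j K : ℚ) : ℝ) -
            ∑ i ∈ range (β.length + 1), hr (cl (β.take i)) j * Y i K) / (j : ℝ) ^ (b : ℕ) := by
        symm
        refine sum_subset (Ico_subset_Ico le_rfl hm) fun j hj hnj => ?_
        rw [mem_Ico] at hj hnj
        rw [hY2 K j hK (by omega), sub_self, zero_div]
      have h4 : ∑ j ∈ Ico 1 m, (∑ i ∈ range (β.length + 1), hr (cl (β.take i)) j * Y i K) /
            (j : ℝ) ^ (b : ℕ) =
          ∑ i ∈ range (β.length + 1), hr (cl ((b :: β).take (i + 1))) m * Y i K := by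
        simp only [sum_div]
        rw [sum_comm]
        refine sum_congr rfl fun i _ => ?_
        rw [List.take_succ_cons]
        show _ = hr ((b : ℕ) :: cl (β.take i)) m * _
        rw [hr_cons, sum_mul]
        refine sum_congr rfl fun j _ => ?_
        ring
      rw [h1, h2, h3, h4, List.length_cons, sum_range_succ' _ (β.length + 1), List.take_zero]
      have h5 : hr (cl ([] : List ℕ+)) m = 1 := by
        show hr [] m = 1
        rw [hr_nil]
      rw [h5, one_mul, add_comm]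

/-- the words with a small beginning -/
lemma expL (l : List (ℕ × ℕ)) (hl : OK l) : ∃ Y : ℕ → ℕ → ℝ,
    (∀ K, Y (zb l).length K = ((cf 1 (rs l) K : ℚ) : ℝ)) ∧
    ∀ K m, 1 ≤ K → K + 1 ≤ m → ((T 1 l m K : ℚ) : ℝ) =
      ∑ j ∈ range ((zb l).length + 1), hr (cl ((zb l).take j)) m * Y j K := by
  have hrs : HP (rs l) := by
    rcases rs_cases l with ⟨h1, _⟩ | h1
    · rw [h1]
      trivial
    · obtain ⟨x, l', h2, h3, _⟩ := h1
      rw [h2]
      show 1 ≤ x.1
      omega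
  obtain ⟨Y, h1, h2⟩ := expT (rs l) hrs (zb l)
  refine ⟨Y, h1, fun K m hK hm => ?_⟩
  rw [← h2 K m hK hm, split hl]

end Pool.Agent.K1H90.NV
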