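import Pool.Agent.K1H90.NV.Ex
import Pool.Agent.Y760.ZF.Zk

/-!
# The coefficient functions of words are independent on the class of a tower
-/

set_option autoImplicit false

namespace Pool.Agent.K1H90.NV

open Finset Pool.Agent.TH507.WG
open Pool.Agent.Y760.ZG (hr hr_nil hr_cons cl)
open Pool.Agent.Y760.ZF (zek)

/-- bounds for the words -/
def Bdd (A M ℓ : ℕ) (v : List (ℕ × ℕ)) : Prop :=
  HP v ∧ OK v ∧ v.length ≤ ℓ ∧ ∀ z ∈ v, z.1 ≤ A ∧ z.2 ≤ M

/-- the zero estimate -/
def Zek (M ℓ N R : ℕ) : Prop :=
  ∀ Λ : Finset (List ℕ+), Λ.card ≤ N * (ℓ + 1) → (∀ β ∈ Λ, β.length ≤ ℓ) →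
    ∀ κ : Fin (M + 1) → List ℕ+ → ℝ, (∃ i, ∃ β ∈ Λ, κ i β ≠ 0) → ∀ Q : Finset ℕ, (∀ k ∈ Q, 1 ≤ k ∧
      ∑ i : Fin (M + 1), ((k : ℝ) ^ (i : ℕ))⁻¹ * ∑ β ∈ Λ, κ i β * hr (cl β) k = 0) → Q.card ≤ R

lemma exists_Zek (M ℓ N : ℕ) : ∃ R, Zek M ℓ N R := by
  obtain ⟨R, hR⟩ := zek (Fin (M + 1)) (N * (ℓ + 1)) ℓ
  exact ⟨R, fun Λ h1 h2 κ h3 Q h4 => hR (fun i => (i : ℕ)) Fin.val_injective Λ h1 h2 κ h3 Q h4⟩

lemma Z_length (v : List ℕ+) : (Z v).length = v.length := by
  induction v with
  | nil => rfl
  | cons b v ih => rw [Z_cons, List.length_cons, List.length_cons, ih]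

lemma zb_length (l : List (ℕ × ℕ)) (hl : OK l) : (zb l).length + (rs l).length = l.length := by
  have h1 := congrArg List.length (split hl)
  rw [List.length_append] at h1
  have h2 := Z_length (zb l)
  omega

lemma HP_rs (l : List (ℕ × ℕ)) : HP (rs l) := by
  rcases rs_cases l with ⟨h1, _⟩ | h1
  · rw [h1]
    trivial
  · obtain ⟨x, l', h2, h3, _⟩ := h1
    rw [h2]
    show 1 ≤ x.1
    omega

lemma HP_nil_of_pa {v : List (ℕ × ℕ)} (hv : HP v) (h : (pa v).length ≤ 0) : v = [] := by
  cases v with
  | nil => rfl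
  | cons x l =>
    have hx : 1 ≤ x.1 := hv
    rw [pa_pos l (by omega)] at h
    simp at h

theorem indP (A M ℓ N R : ℕ) (hR : Zek M ℓ N R) : ∀ L : List (Finset ℕ), Tow A R L →
    ∀ Λ : Finset (List (ℕ × ℕ)), Λ.card ≤ N →
    (∀ v ∈ Λ, Bdd A M ℓ v ∧ (pa v).length ≤ L.length) → ∀ x : List (ℕ × ℕ) → ℝ,
    (∀ K, Cl A L K → ∑ v ∈ Λ, x v * ((cf 1 v K : ℚ) : ℝ) = 0) → ∀ v ∈ Λ, x v = 0 := by
  classical
  intro L
  have hone : ∀ (L : List (Finset ℕ)), Tow A R L → ∀ (Λ : Finset (List (ℕ × ℕ)))
      (x : List (ℕ × ℕ) → ℝ), (∀ K, Cl A L K → ∑ v ∈ Λ, x v * ((cf 1 v K : ℚ) : ℝ) = 0) →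
      (∀ v ∈ Λ, x v ≠ 0 → v = []) → ∀ v ∈ Λ, x v = 0 := by
    intro L hL Λ x h0 hall v hv
    by_contra hne
    have hvn := hall v hv hne
    subst hvn
    have h1 := h0 1 (Cl_one hL)
    rw [sum_eq_single []] at h1
    · rw [cf, T_nil, if_pos rfl, Rat.cast_one, mul_one] at h1
      exact hne h1
    · intro w hw hwn
      by_cases hxw : x w = 0
      · rw [hxw, zero_mul]
      · exact absurd (hall w hw hxw) hwn
    · intro h2
      exact absurd hv h2
  induction L with
  | nil =>
    intro hL Λ _ hΛ x h0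
    exact hone [] hL Λ x h0 fun v hv _ => HP_nil_of_pa (hΛ v hv).1.1 (hΛ v hv).2
  | cons P L ih =>
    intro hTow Λ hΛN hΛ x h0
    by_cases hall : ∀ v ∈ Λ, x v ≠ 0 → v = []
    · exact hone _ hTow Λ x h0 hall
    exfalso
    rw [Tow_cons] at hTow
    obtain ⟨hT, hPc, hPp⟩ := hTow
    push Not at hall
    obtain ⟨v2, hv2, hv2x, hv2n⟩ := hall
    obtain ⟨v3, hv3, hmin⟩ := exists_min_image (Λ.filter fun v => x v ≠ 0 ∧ v ≠ [])
      (fun v => (v.headD (0, 0)).1) ⟨v2, mem_filter.2 ⟨hv2, hv2x, hv2n⟩⟩
    rw [mem_filter] at hv3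
    set a : ℕ := (v3.headD (0, 0)).1 with ha
    set F : Finset (List (ℕ × ℕ)) :=
      Λ.filter (fun v => x v ≠ 0 ∧ v ≠ [] ∧ (v.headD (0, 0)).1 = a) with hF
    set bb : List (ℕ × ℕ) → ℕ := fun v => (v.headD (0, 0)).2 with hbb
    have hFc : ∀ v ∈ F, v = (a, bb v) :: v.tail := by
      intro v hv
      rw [hF, mem_filter] at hv
      cases v with
      | nil => exact absurd rfl hv.2.2.1
      | cons z l =>
        have h1 : z.1 = a := hv.2.2.2
        show z :: l = (a, z.2) :: l
        rw [← h1]
    have hFΛ : ∀ v ∈ F, v ∈ Λ := fun v hv => (mem_filter.1 hv).1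
    have hFx : ∀ v ∈ F, x v ≠ 0 := fun v hv => (mem_filter.1 hv).2.1
    have hv3F : v3 ∈ F := mem_filter.2 ⟨hv3.1, hv3.2.1, hv3.2.2, rfl⟩
    have ha1 : 1 ≤ a := by
      have h1 := (hΛ v3 hv3.1).1.1
      rw [hFc v3 hv3F] at h1
      exact h1
    have haA : a ≤ A := by
      have h1 := (hΛ v3 hv3.1).1.2.2.2
      exact (h1 (a, bb v3) (by rw [hFc v3 hv3F]; exact List.mem_cons_self)).1
    have hbM : ∀ v ∈ F, bb v < M + 1 := by
      intro v hv
      have h1 := (hΛ v (hFΛ v hv)).1.2.2.2
      have h2 := (h1 (a, bb v) (by rw [hFc v hv]; exact List.mem_cons_self)).2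
      exact Nat.lt_succ_of_le h2
    have hOKt : ∀ v ∈ F, OK v.tail := by
      intro v hv
      have h1 := (hΛ v (hFΛ v hv)).1.2.1
      rw [hFc v hv] at h1
      exact h1.tail
    have hlen : ∀ v ∈ F, v.tail.length ≤ ℓ := by
      intro v hv
      have h1 := (hΛ v (hFΛ v hv)).1.2.2.1
      rw [List.length_tail]
      omega
    have hexp := fun l (hl : OK l) => expL l hl
    choose! Y hY1 hY2 using hexp
    -- the sum over the words with first letter `(a, b)`
    set G : ℕ → ℕ → ℝ := fun m K => ∑ v ∈ F, x v *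
      (((T 1 v.tail m K : ℚ) : ℝ) / (m : ℝ) ^ bb v) with hG
    have hsum : ∀ p ∈ P, ∀ K, Cl A L K →
        ∑ d ∈ Icc 1 K, (if d ^ a ∣ K then G (p * d) (K / d ^ a) else 0) = 0 := by
      intro p hp K hK
      have hpp := (hPp p hp).1
      have hKp := (hPp p hp).2 K hK
      have hK1 := Cl_pos hT K hK
      have h1 := h0 (p ^ a * K) ⟨p, hp, a, haA, K, hK, rfl⟩
      refine Eq.trans ?_ h1
      have h2 : ∀ v ∈ Λ, x v * ((cf 1 v (p ^ a * K) : ℚ) : ℝ) = if v ∈ F then
          x v * ∑ d ∈ Icc 1 K, (if d ^ a ∣ K then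
            ((T 1 v.tail (p * d) (K / d ^ a) : ℚ) : ℝ) / ((p * d : ℕ) : ℝ) ^ bb v else 0)
          else 0 := by
        intro v hv
        split_ifs with hvF
        · congr 1
          have h3 : cf 1 v (p ^ a * K) = cf 1 ((a, bb v) :: v.tail) (p ^ a * K) := by
            rw [← hFc v hvF]
          rw [h3, peel_eq (a, bb v) v.tail ha1 hpp hK1 hKp]
          push_cast
          refine sum_congr rfl fun d _ => ?_
          split_ifs
          · push_cast
            rfl
          · simp
        · by_cases hx : x v = 0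
          · rw [hx, zero_mul]
          cases v with
          | nil =>
            have h3 : p ^ a * K ≠ 1 := by
              have h4 : p ≤ p ^ a := Nat.le_self_pow (by omega) p
              have h5 := hpp.two_le
              have h6 : p ^ a * 1 ≤ p ^ a * K := Nat.mul_le_mul_left _ hK1
              omega
            rw [cf, T_nil, if_neg h3, Rat.cast_zero, mul_zero]
          | cons z l =>
            have h3 := hmin (z :: l) (mem_filter.2 ⟨hv, hx, List.cons_ne_nil _ _⟩)
            have h4 : a ≤ z.1 := h3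
            have h5 : a ≠ z.1 := by
              intro h6
              apply hvF
              exact mem_filter.2 ⟨hv, hx, List.cons_ne_nil _ _, h6.symm⟩
            rw [peel_lt z l ha1 (lt_of_le_of_ne h4 h5) hpp hK1 hKp, Rat.cast_zero, mul_zero]
      have h3 : ∑ v ∈ Λ, x v * ((cf 1 v (p ^ a * K) : ℚ) : ℝ) = ∑ v ∈ F,
          x v * ∑ d ∈ Icc 1 K, (if d ^ a ∣ K then
            ((T 1 v.tail (p * d) (K / d ^ a) : ℚ) : ℝ) / ((p * d : ℕ) : ℝ) ^ bb v else 0) := by
        rw [sum_congr rfl h2, ← sum_filter, filter_mem_eq_inter,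
          inter_eq_right.2 (fun v hv => hFΛ v hv)]
      rw [h3]
      simp only [mul_sum]
      rw [sum_comm]
      refine sum_congr rfl fun d _ => ?_
      by_cases hd : d ^ a ∣ K
      · simp only [if_pos hd]
        rw [hG]
      · simp only [if_neg hd, mul_zero, sum_const_zero]
    -- the expansion
    set Γ : Finset (List ℕ+) := F.biUnion fun v =>
      (range (ℓ + 1)).image fun j => (zb v.tail).take j with hΓ
    have hΓc : Γ.card ≤ N * (ℓ + 1) := by
      refine (card_biUnion_le_card_mul _ _ (ℓ + 1) fun v _ => ?_).trans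
        (Nat.mul_le_mul_right _ ((card_filter_le _ _).trans hΛN))
      refine card_image_le.trans ?_
      rw [card_range]
    have hzl : ∀ v ∈ F, (zb v.tail).length ≤ ℓ := by
      intro v hv
      have h1 := zb_length v.tail (hOKt v hv)
      have h2 := hlen v hv
      omega
    have hΓl : ∀ γ ∈ Γ, γ.length ≤ ℓ := by
      intro γ hγ
      obtain ⟨v, hv, hγ⟩ := mem_biUnion.1 hγ
      obtain ⟨j, _, rfl⟩ := mem_image.1 hγ
      rw [List.length_take]
      have := hzl v hv
      omega
    have hΓm : ∀ v ∈ F, ∀ j ∈ range ((zb v.tail).length + 1), (zb v.tail).take j ∈ Γ := by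
      intro v hv j hj
      refine mem_biUnion.2 ⟨v, hv, mem_image.2 ⟨j, ?_, rfl⟩⟩
      rw [mem_range] at hj ⊢
      have := hzl v hv
      omega
    set κ : ℕ → Fin (M + 1) → List ℕ+ → ℝ := fun K i γ => ∑ v ∈ F, if bb v = (i : ℕ) then
      x v * ∑ j ∈ range ((zb v.tail).length + 1),
        (if (zb v.tail).take j = γ then Y v.tail j K else 0) else 0 with hκ
    have hGexp : ∀ K m : ℕ, 1 ≤ K → K + 1 ≤ m → ∑ i : Fin (M + 1), ((m : ℝ) ^ (i : ℕ))⁻¹ *
        ∑ γ ∈ Γ, κ K i γ * hr (cl γ) m = G m K := by
      intro K m hK hm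
      rw [hG, hκ]
      simp only
      have h1 : ∀ i : Fin (M + 1), ((m : ℝ) ^ (i : ℕ))⁻¹ * ∑ γ ∈ Γ, (∑ v ∈ F,
          if bb v = (i : ℕ) then x v * ∑ j ∈ range ((zb v.tail).length + 1),
            (if (zb v.tail).take j = γ then Y v.tail j K else 0) else 0) * hr (cl γ) m =
          ∑ v ∈ F, if bb v = (i : ℕ) then x v * (((T 1 v.tail m K : ℚ) : ℝ) /
            (m : ℝ) ^ bb v) else 0 := by
        intro i
        simp only [sum_mul]
        rw [sum_comm, mul_sum]
        refine sum_congr rfl fun v hv => ?_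
        by_cases hi : bb v = (i : ℕ)
        · simp only [if_pos hi]
          rw [hY2 v.tail (hOKt v hv) K m hK hm, hi]
          have h2 : ∑ γ ∈ Γ, x v * (∑ j ∈ range ((zb v.tail).length + 1),
              (if (zb v.tail).take j = γ then Y v.tail j K else 0)) * hr (cl γ) m =
              x v * ∑ j ∈ range ((zb v.tail).length + 1),
                hr (cl ((zb v.tail).take j)) m * Y v.tail j K := by
            simp only [mul_sum, sum_mul]
            rw [sum_comm]
            refine sum_congr rfl fun j hj => ?_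
            rw [sum_eq_single ((zb v.tail).take j)]
            · rw [if_pos rfl]
              ring
            · intro γ _ hγ
              rw [if_neg (Ne.symm hγ), mul_zero, zero_mul]
            · intro h3
              exact absurd (hΓm v hv j hj) h3
          rw [h2, div_eq_mul_inv]
          ring
        · simp only [if_neg hi, zero_mul, sum_const_zero, mul_zero]
      rw [sum_congr rfl fun i _ => h1 i, sum_comm]
      refine sum_congr rfl fun v hv => ?_
      rw [sum_eq_single (⟨bb v, hbM v hv⟩ : Fin (M + 1))]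
      · rw [if_pos rfl]
      · intro i _ hi
        rw [if_neg]
        intro h2
        exact hi (Fin.ext h2.symm)
      · intro h2
        exact absurd (mem_univ _) h2
    -- all coefficients vanish
    have hκ0 : ∀ K, Cl A L K → ∀ i, ∀ γ ∈ Γ, κ K i γ = 0 := by
      intro K
      induction K using Nat.strong_induction_on with
      | _ K ihK =>
        intro hK
        by_contra hcon
        push Not at hcon
        obtain ⟨i, γ, hγ, hne⟩ := hcon
        have hK1 := Cl_pos hT K hK
        have h1 := hR Γ hΓc hΓl (κ K) ⟨i, γ, hγ, hne⟩ P (fun p hp => ⟨(hPp p hp).1.one_lt.le, by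
          have hKp := (hPp p hp).2 K hK
          rw [hGexp K p hK1 hKp]
          have h2 := hsum p hp K hK
          rw [sum_eq_single 1] at h2
          · rw [one_pow, if_pos (one_dvd _), mul_one, Nat.div_one] at h2
            exact h2
          · intro d hd hd1
            rw [mem_Icc] at hd
            split_ifs with hdd
            · have hda : 2 ≤ d ^ a := by
                have h3 : d ≤ d ^ a := Nat.le_self_pow (by omega) d
                omega
              have h3 := Nat.div_mul_cancel hdd
              have h4 : 1 ≤ K / d ^ a := Nat.div_pos (Nat.le_of_dvd hK1 hdd) (by omega)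
              have h5 : K / d ^ a < K := Nat.div_lt_self hK1 (by omega)
              have h6 : Cl A L (K / d ^ a) := Cl_dvd hT K _ hK (Nat.div_dvd_of_dvd hdd)
              have h7 := ihK _ h5 h6
              rw [← hGexp (K / d ^ a) (p * d) h4 (by
                have h8 : p * 1 ≤ p * d := Nat.mul_le_mul_left p hd.1
                omega)]
              refine sum_eq_zero fun i' _ => ?_
              rw [sum_eq_zero fun γ' hγ' => by rw [h7 i' γ' hγ', zero_mul], mul_zero]
            · rfl
          · intro h3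
            exact absurd (mem_Icc.2 ⟨le_rfl, hK1⟩) h3⟩)
        omega
    -- the words with the longest beginning
    set b1 : ℕ := bb v3 with hb1
    obtain ⟨v4, hv4, hmax⟩ := exists_max_image (F.filter fun v => bb v = b1)
      (fun v => (zb v.tail).length) ⟨v3, mem_filter.2 ⟨hv3F, rfl⟩⟩
    rw [mem_filter] at hv4
    set β1 : List ℕ+ := zb v4.tail with hβ1
    set F2 : Finset (List (ℕ × ℕ)) := F.filter (fun v => bb v = b1 ∧ zb v.tail = β1) with hF2
    have hv4F2 : v4 ∈ F2 := mem_filter.2 ⟨hv4.1, hv4.2, rfl⟩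
    have hF2v : ∀ v ∈ F2, v = (a, b1) :: (Z β1 ++ rs v.tail) := by
      intro v hv
      rw [hF2, mem_filter] at hv
      have h1 := hFc v hv.1
      have h2 := split (hOKt v hv.1)
      rw [hv.2.2] at h2
      rw [hv.2.1, ← h2] at h1
      conv_lhs => rw [h1]
    have hinj : Set.InjOn (fun v : List (ℕ × ℕ) => rs v.tail) F2 := by
      intro v hv v' hv' hvv
      simp only at hvv
      rw [hF2v v hv, hF2v v' hv', hvv]
    have hkey := ih hT (F2.image fun v => rs v.tail) (by
      refine card_image_le.trans ((card_filter_le _ _).trans ((card_filter_le _ _).trans hΛN)))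
      (by
        intro r hr
        obtain ⟨v, hv, rfl⟩ := mem_image.1 hr
        have hvF := (mem_filter.1 hv).1
        obtain ⟨h1, h2⟩ := hΛ v (hFΛ v hvF)
        have h3 := zb_length v.tail (hOKt v hvF)
        refine ⟨⟨HP_rs _, ?_, ?_, ?_⟩, ?_⟩
        · intro z hz
          refine h1.2.1 z ?_
          rw [hF2v v hv]
          exact List.mem_cons_of_mem _ (List.mem_append_right _ hz)
        · have := hlen v hvF
          omega
        · intro z hz
          refine h1.2.2.2 z ?_
          rw [hF2v v hv]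
          exact List.mem_cons_of_mem _ (List.mem_append_right _ hz)
        · rw [pa_rs]
          rw [hFc v hvF, pa_pos _ (show (a, bb v).1 ≠ 0 by show a ≠ 0; omega), List.length_cons,
            List.length_cons] at h2
          omega) (fun r => x ((a, b1) :: (Z β1 ++ r))) (by
        intro K hK
        rw [sum_image hinj]
        have h1 := hκ0 K hK ⟨b1, hbM v3 hv3F⟩ β1 (by
          have h2 := hΓm v4 hv4.1 (zb v4.tail).length (mem_range.2 (Nat.lt_succ_self _))
          rwa [List.take_length] at h2)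
        rw [hκ] at h1
        rw [← h1, hF2, sum_filter]
        refine sum_congr rfl fun v hv => ?_
        by_cases hb : bb v = b1
        · rw [if_pos hb]
          have hle : (zb v.tail).length ≤ β1.length := hmax v (mem_filter.2 ⟨hv, hb⟩)
          by_cases hz : zb v.tail = β1
          · rw [if_pos ⟨hb, hz⟩]
            have h2 : (a, b1) :: (Z β1 ++ rs v.tail) = v :=
              (hF2v v (mem_filter.2 ⟨hv, hb, hz⟩)).symm
            rw [h2]
            congr 1
            rw [sum_eq_single (zb v.tail).length]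
            · rw [List.take_length, if_pos hz, hY1 _ (hOKt v hv)]
            · intro j hj hjn
              rw [mem_range] at hj
              rw [if_neg]
              intro h3
              have h4 := congrArg List.length h3
              rw [List.length_take, ← hz] at h4
              omega
            · intro h3
              exact absurd (mem_range.2 (Nat.lt_succ_self _)) h3
          · rw [if_neg (fun h => hz h.2), sum_eq_zero, mul_zero]
            intro j hj
            rw [if_neg]
            intro h3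
            apply hz
            have h4 := congrArg List.length h3
            rw [List.length_take] at h4
            have h5 : (zb v.tail).length ≤ j := by omega
            rwa [List.take_of_length_le h5] at h3
        · rw [if_neg hb, if_neg (fun h => hb h.1)]) (rs v4.tail) (mem_image_of_mem _ hv4F2)
    rw [← hF2v v4 hv4F2] at hkey
    exact hFx v4 hv4.1 hkey

end Pool.Agent.K1H90.NV
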