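import Pool.Agent.K1H90.NV.Nv
import Pool.Agent.Y760.SR.Fin

/-!
# Sharp measures for multiple polylogarithms at sixth roots of unity, all words
-/

set_option autoImplicit false

namespace Pool.Agent.K1H90.NV

open Finset Filter Topology Pool.Agent.TH507.ZS Pool.Agent.Y777.CL Pool.Agent.Y760.RT
open Pool.Agent.Y760.ST
open Pool.Agent.TH507.WG (HP OK cf T_nil T_cons)

/-- the tail condition, for the multiples by `1` and `ω` -/
lemma tail_u {u : ℂ} (hu : RR u) (hu1 : ‖u‖ = 1) (w : List Lt) (hw : GD w) (hHP : HP (pt w)) :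
    Tail (fun K => (u * TC w (K + 1) K).re) (fun n => (u * Li (ag n w)).re) := by
  cases w with
  | nil => exact Pool.Agent.Y760.SR.tail_u hu hu1 [] hw (fun x hx => absurd hx List.not_mem_nil)
  | cons x l =>
    have hx : 1 ≤ x.1.1 := hHP
    have hq : ∀ K : ℕ, ∃ q : ℚ, (u * TC (x :: l) (K + 1) K).re = q := fun K =>
      (hu.mul (TC_RR (x :: l) hw (K + 1) K)).re
    choose g hg using hq
    have hlen : (pt (x :: l)).length = l.length + 1 := by
      rw [pt, List.length_map, List.length_cons]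
    set A : ℕ := 2 ^ (l.length + 1) + (l.length + 1) with hA
    have hA1 : 2 ^ (l.length + 1) ≤ A := Nat.le_add_right _ _
    have hA2 : l.length + 1 ≤ A := Nat.le_add_left _ _
    have hbd : ∀ k, 1 ≤ k → |(g k : ℝ)| ≤ A * (k : ℝ) ^ A := by
      intro k hk
      rw [← hg k]
      refine (Complex.abs_re_le_norm _).trans ?_
      rw [norm_mul, hu1, one_mul]
      refine (TC_norm _ hw _ _).trans ?_
      have h1 := Pool.Agent.TH507.WG.cf_bd (pt (x :: l)) (A := A) (by rw [hlen]; exact hA1)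
        (by rw [hlen]; exact hA2) k hk
      exact (le_abs_self _).trans h1
    simp only [hg]
    refine tail_congr (tail_dser hbd) (n1 := A + 2) fun n hn => ?_
    obtain ⟨h1, h2⟩ := li_eq x l hx hw hA1 hA2 hn
    have h3 := Complex.hasSum_re (h1.hasSum.mul_left u)
    rw [h2] at h3
    have h4 : (fun K : ℕ => (u * (TC (x :: l) (K + 1) K / (K : ℂ) ^ n)).re) =
        fun K : ℕ => (g K : ℝ) / (K : ℝ) ^ n := by
      funext K
      rw [← hg, ← mul_div_assoc, ← Complex.ofReal_natCast, ← Complex.ofReal_pow,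
        Complex.div_ofReal_re]
    rw [h4] at h3
    have h5 := (hasSum_nat_add_iff' 1).2 h3
    rw [sum_range_one] at h5
    have h6 : (g 0 : ℝ) / ((0 : ℕ) : ℝ) ^ n = 0 := by
      rw [Nat.cast_zero, zero_pow (by omega), div_zero]
    rw [h6, sub_zero] at h5
    rw [dser]
    exact h5.tsum_eq.symm

/-- the tail condition for complex multiples -/
lemma tail_th (θ : ℂ) (w : List Lt) (hw : GD w) (hHP : HP (pt w)) :
    Tail (fun K => (θ * TC w (K + 1) K).re) (fun n => (θ * Li (ag n w)).re) := by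
  have h3 : Real.sqrt 3 ≠ 0 := by positivity
  have hz : ∀ z : ℂ, (θ * z).re = (θ.re - θ.im / Real.sqrt 3) * ((1 : ℂ) * z).re +
      (2 * θ.im / Real.sqrt 3) * (om * z).re := by
    intro z
    simp only [om, Complex.mul_re, Complex.one_re, Complex.one_im]
    field_simp
    ring
  have h1 := (tail_u RR.one norm_one w hw hHP).mul (θ.re - θ.im / Real.sqrt 3)
  have h2 := (tail_u RR.om Pool.Agent.Y760.SR.norm_om w hw hHP).mul (2 * θ.im / Real.sqrt 3)
  have h4 := tail_add h1 h2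
  simp only [← hz] at h4
  exact h4

/-- **sharp measures for multiple polylogarithms at sixth roots of unity** -/
theorem main {ι : Type} [Fintype ι] (W : ι → List Lt) (θ : ι → ℂ)
    (hθ : ∀ i, IsAlgebraic ℚ (θ i)) (hW : ∀ i, GD (W i)) (hHP : ∀ i, HP (pt (W i)))
    (hOK : ∀ i, OK (pt (W i))) (i0 : ι) (h0 : (W i0).length ≤ 1)
    (hind : ∀ b : ι → ℚ, (∀ v : List (ℕ × ℕ), ∑ i, (if pt (W i) = v then
      (b i : ℝ) * (θ i * pz (W i)).re else 0) = 0) → b = 0) :
    ∃ D : ℝ, 1 < D ∧ ∀ C B : ℝ, 1 < B → ∃ n0 : ℕ, ∀ n : ℕ, n0 ≤ n → ∀ H : ℝ, D ^ n ≤ H →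
      H ≤ C ^ n → ∀ q : ι → ℤ, q ≠ 0 → (∀ i, |(q i : ℝ)| ≤ H) →
        1 / (H ^ (Fintype.card ι - 1) * B ^ n) <
          |∑ i, (q i : ℝ) * (θ i * Li (ag n (W i))).re| := by
  classical
  set Λ : Finset (List (ℕ × ℕ)) := univ.image fun i => pt (W i) with hΛ
  obtain ⟨T, hT0, hTT⟩ := nvT Λ (fun v hv => by
    obtain ⟨i, -, rfl⟩ := mem_image.1 hv
    exact ⟨hHP i, hOK i⟩) ((Fintype.card ι : ℝ) ^ 2)
  set c : ι → ℕ → ℝ := fun i K => (θ i * TC (W i) (K + 1) K).re with hc
  have hne : ∀ i, (θ i * pz (W i)).re ≠ 0 := by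
    intro i hi
    have h1 := hind (Pi.single i 1) (by
      intro v
      refine sum_eq_zero fun j _ => ?_
      by_cases hj : j = i
      · subst hj
        rw [hi, mul_zero, ite_self]
      · rw [Pi.single_eq_of_ne hj, Rat.cast_zero, zero_mul, ite_self])
    have h2 := congrFun h1 i
    rw [Pi.single_eq_same, Pi.zero_apply] at h2
    exact one_ne_zero h2
  have hc6 : ∀ i K, 1 ≤ K → P6 K → c i K = (θ i * pz (W i)).re *
      ((cf 1 (pt (W i)) K : ℚ) : ℝ) := by
    intro i K hK h6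
    rw [hc]
    simp only
    rw [TC_at (W i) (hW i) _ _ (by omega) h6, ← mul_assoc, ← Complex.ofReal_ratCast,
      Complex.re_mul_ofReal]
    rfl
  refine ⟨Real.exp T, Real.one_lt_exp_iff.2 hT0, fun C B hB => ?_⟩
  obtain ⟨n0, hn0⟩ := mainI i0 c (fun i K => Pool.Agent.Y760.SR.re_alg
      ((hθ i).mul (Pool.Agent.Y760.SR.RR.alg (TC_RR _ (hW i) _ _))))
    (fun i n => (θ i * Li (ag n (W i))).re)
    (fun i => tail_th (θ i) _ (hW i) (hHP i)) (by
      rw [hc6 i0 1 le_rfl fun p hp hd => absurd (Nat.dvd_one.1 hd) hp.ne_one]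
      refine mul_ne_zero (hne i0) ?_
      have h1 : cf 1 (pt (W i0)) 1 = 1 := by
        rcases hw0 : W i0 with _ | ⟨x, l⟩
        · rw [pt_nil, Pool.Agent.TH507.WG.cf, T_nil, if_pos rfl]
        · rw [hw0, List.length_cons] at h0
          have hl : l = [] := List.length_eq_zero_iff.1 (by omega)
          subst hl
          rw [pt_cons, pt_nil, Pool.Agent.TH507.WG.cf, T_cons, Pool.Agent.TH507.WG.lo_one]
          rw [show Ico 1 (1 + 1) = {1} from rfl, sum_singleton, one_pow, if_pos (dvd_refl 1),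
            T_nil, Nat.div_self one_pos, if_pos rfl, Nat.cast_one, one_pow,
            div_one]
      rw [h1, Rat.cast_one]
      exact one_ne_zero) T hT0.le (by
    intro s hs h hh hlog b hb
    set x : List (ℕ × ℕ) → ℝ := fun v => ∑ i, (if pt (W i) = v then
      (b i : ℝ) * (θ i * pz (W i)).re else 0) with hx
    obtain ⟨v, hv⟩ : ∃ v, x v ≠ 0 := by
      by_contra hcon
      push Not at hcon
      exact hb (hind b hcon)
    obtain ⟨K, hK1, hKs, hco, hK6, hne2⟩ := hTT s hs h hh hlog x ⟨v, by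
      by_contra hcon
      apply hv
      refine sum_eq_zero fun i _ => ?_
      rw [if_neg]
      intro h1
      exact hcon (mem_image.2 ⟨i, mem_univ _, h1⟩), hv⟩
    refine ⟨K, hK1, hKs, hco, fun h1 => hne2 ?_⟩
    rw [← h1, hx]
    simp only [sum_mul]
    rw [sum_comm]
    refine sum_congr rfl fun i _ => ?_
    rw [sum_eq_single (pt (W i))]
    · rw [if_pos rfl, hc6 i K hK1 hK6, mul_assoc]
    · intro v' _ hv'
      rw [if_neg (Ne.symm hv'), zero_mul]
    · intro h2
      exact absurd (mem_image.2 ⟨i, mem_univ _, rfl⟩) h2) C B hB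
  refine ⟨n0, fun n hn H hH1 hH2 q hq hqH => hn0 n hn H ?_ hH2 q hq hqH⟩
  rw [mul_comm, Real.exp_nat_mul]
  exact hH1

end Pool.Agent.K1H90.NV
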