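import Pool.Agent.K1H90.NV.Nv
import Pool.Agent.TH507.WG.F
import Pool.Agent.Y760.ST.Fin

/-!
# Sharp measures for combinations of multiple zeta values, all words
-/

set_option autoImplicit false

namespace Pool.Agent.K1H90.NV

open Filter Topology Pool.Agent.TH507.ZS Pool.Agent.Y760.RT Pool.Agent.Y760.ST
open Pool.Agent.TH507.WG (HP OK T_nil T_cons ar st stl stl_ok mz_prod)
open Pool.Agent.TH507.WD (mz)

/-- the series of a word -/
lemma tail_word (w : List (ℕ × ℕ)) (hw : HP w) :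
    Tail (fun k => (Pool.Agent.TH507.WG.cf 1 w k : ℝ)) (fun n => mz (ar n w)) := by
  have h1 : 2 ^ w.length ≤ 2 ^ w.length + w.length := Nat.le_add_right _ _
  have h2 : w.length ≤ 2 ^ w.length + w.length := Nat.le_add_left _ _
  exact tail_congr (tail_dser (Pool.Agent.TH507.WG.cf_bd w h1 h2)) (n1 := 2 ^ w.length + w.length + 2)
    fun n hn => (Pool.Agent.TH507.WG.dser_eq_mz w hw h1 h2 hn).symm

/-- the value of a rational combination of words -/
noncomputable def valW (n : ℕ) : (List (ℕ × ℕ) →₀ ℚ) →ₗ[ℚ] ℝ :=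
  Finsupp.linearCombination ℚ fun w => mz (ar n w)

/-- the value of a rational combination of products of words -/
noncomputable def valP (n : ℕ) : (List (List (ℕ × ℕ)) →₀ ℚ) →ₗ[ℚ] ℝ :=
  Finsupp.linearCombination ℚ fun M => (M.map fun u => mz (ar n u)).prod

/-- the stuffle expansion -/
noncomputable def expand : (List (List (ℕ × ℕ)) →₀ ℚ) →ₗ[ℚ] (List (ℕ × ℕ) →₀ ℚ) :=
  Finsupp.linearCombination ℚ fun M => ((stl M).map fun w => Finsupp.single w 1).sum

lemma valP_eq (x : List (List (ℕ × ℕ)) →₀ ℚ) (hx : ∀ M ∈ x.support, ∀ u ∈ M, HP u ∧ OK u) :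
    ∃ n0 : ℕ, ∀ n, n0 ≤ n → valP n x = valW n (expand x) := by
  classical
  refine ⟨x.support.sup (fun M => (M.map List.length).sum) + 1, fun n hn => ?_⟩
  unfold valP expand
  rw [Finsupp.linearCombination_apply, Finsupp.linearCombination_apply, Finsupp.sum, Finsupp.sum,
    map_sum]
  refine Finset.sum_congr rfl fun M hM => ?_
  have h1 : (M.map List.length).sum ≤ x.support.sup (fun M => (M.map List.length).sum) :=
    Finset.le_sup (f := fun M : List (List (ℕ × ℕ)) => (M.map List.length).sum) hM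
  rw [map_smul, mz_prod M (hx M hM) (by omega)]
  congr 1
  generalize stl M = L
  induction L with
  | nil => simp
  | cons w L ih =>
    rw [List.map_cons, List.sum_cons, List.map_cons, List.sum_cons, map_add, ← ih]
    congr 1
    unfold valW
    rw [Finsupp.linearCombination_single, one_smul]

lemma expand_supp (x : List (List (ℕ × ℕ)) →₀ ℚ) (hx : ∀ M ∈ x.support, ∀ u ∈ M, HP u ∧ OK u) :
    ∀ w ∈ (expand x).support, HP w ∧ OK w := by
  classical
  intro w hw
  by_contra hcon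
  rw [Finsupp.mem_support_iff] at hw
  apply hw
  unfold expand
  rw [Finsupp.linearCombination_apply, Finsupp.sum, Finsupp.finsetSum_apply]
  refine Finset.sum_eq_zero fun M hM => ?_
  rw [Finsupp.smul_apply]
  have h1 : ∀ v ∈ stl M, HP v ∧ OK v := fun v hv =>
    ⟨(stl_ok M (hx M hM) v hv).1, (stl_ok M (hx M hM) v hv).2.1⟩
  have h2 : ((stl M).map fun v => Finsupp.single v (1 : ℚ)).sum w = 0 := by
    revert h1
    generalize stl M = L
    intro h1
    induction L with
    | nil => simp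
    | cons v L ih =>
      rw [List.map_cons, List.sum_cons, Finsupp.add_apply,
        ih fun u hu => h1 u (List.mem_cons_of_mem _ hu), add_zero]
      refine Finsupp.single_eq_of_ne ?_
      intro h3
      apply hcon
      rw [h3]
      exact h1 v List.mem_cons_self
  rw [h2, smul_zero]

lemma cf_at_one (w : List (ℕ × ℕ)) (hw : HP w) :
    Pool.Agent.TH507.WG.cf 1 w 1 = if w.length ≤ 1 then 1 else 0 := by
  rcases w with _ | ⟨x, l⟩
  · rw [Pool.Agent.TH507.WG.cf, T_nil, if_pos rfl, if_pos (by simp)]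
  · rw [Pool.Agent.TH507.WG.cf, T_cons, Pool.Agent.TH507.WG.lo_one,
      show Finset.Ico 1 (1 + 1) = {1} from rfl, Finset.sum_singleton, one_pow,
      if_pos (dvd_refl 1), Nat.div_self one_pos, Nat.cast_one, one_pow, div_one]
    rcases l with _ | ⟨y, l⟩
    · rw [T_nil, if_pos rfl, if_pos (by simp)]
    · rw [T_cons, Pool.Agent.TH507.WG.lo_one, Finset.Ico_self, Finset.sum_empty, if_neg (by simp)]

/-- the limit of the values -/
lemma valW_tendsto (y : List (ℕ × ℕ) →₀ ℚ) (hy : ∀ w ∈ y.support, HP w ∧ OK w)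
    (h0 : (y.sum fun w c => if w.length ≤ 1 then c else 0) = 0) :
    Tendsto (fun n => valW n y) atTop (𝓝 0) := by
  have h1 : Tail (fun k => ∑ w ∈ y.support, (y w : ℝ) * (Pool.Agent.TH507.WG.cf 1 w k : ℝ))
      (fun n => ∑ w ∈ y.support, (y w : ℝ) * mz (ar n w)) :=
    tail_sum y.support (fun w k => (y w : ℝ) * (Pool.Agent.TH507.WG.cf 1 w k : ℝ))
      (fun w n => (y w : ℝ) * mz (ar n w)) fun w hw => (tail_word w (hy w hw).1).mul _
  obtain ⟨A, hA⟩ := h1 1
  have h2 : ∑ w ∈ y.support, (y w : ℝ) * (Pool.Agent.TH507.WG.cf 1 w 1 : ℝ) = 0 := by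
    have h3 : ∑ w ∈ y.support, y w * Pool.Agent.TH507.WG.cf 1 w 1 = 0 := by
      refine Eq.trans ?_ h0
      rw [Finsupp.sum]
      refine Finset.sum_congr rfl fun w hw => ?_
      rw [cf_at_one w (hy w hw).1]
      split_ifs
      · rw [mul_one]
      · rw [mul_zero]
    exact_mod_cast h3
  have h4 : ∀ n, valW n y = ∑ w ∈ y.support, (y w : ℝ) * mz (ar n w) := by
    intro n
    unfold valW
    rw [Finsupp.linearCombination_apply, Finsupp.sum]
    exact Finset.sum_congr rfl fun w _ => by rw [Rat.smul_def]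
  simp only [h4]
  rw [tendsto_zero_iff_abs_tendsto_zero]
  have h5 : Tendsto (fun k : ℕ => A / (((1 : ℕ) : ℝ) + 1) ^ k) atTop (𝓝 0) := by
    refine Tendsto.div_atTop tendsto_const_nhds (tendsto_pow_atTop_atTop_of_one_lt ?_)
    norm_num
  refine squeeze_zero' (Eventually.of_forall fun n => abs_nonneg _) ?_ h5
  filter_upwards [hA] with k hk
  rw [Finset.Icc_self, Finset.sum_singleton, h2, zero_div, sub_zero] at hk
  exact hk

/-- **combinations of words** -/
theorem mzMain {l r : ℕ} (β : Fin l → ℝ) (hβ : ∀ j, IsAlgebraic ℚ (β j))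
    (hβi : LinearIndependent ℚ β) (y : Fin (r + 1) → List (ℕ × ℕ) →₀ ℚ)
    (hy : ∀ i, ∀ w ∈ (y i).support, HP w ∧ OK w)
    (hli : LinearIndependent ℚ y)
    (h0 : ((y 0).sum fun w c => if w.length ≤ 1 then c else 0) ≠ 0) :
    ∃ D : ℝ, 1 < D ∧ ∀ C B : ℝ, 1 < B → ∃ n0 : ℕ, ∀ n : ℕ, n0 ≤ n → ∀ H : ℝ, D ^ n ≤ H →
      H ≤ C ^ n → ∀ q : Fin l → Fin (r + 1) → ℤ, q ≠ 0 → (∀ j i, |(q j i : ℝ)| ≤ H) →
        1 / (H ^ (l * (r + 1) - 1) * B ^ n) <
          |∑ j, ∑ i, (q j i : ℝ) * (β j * valW n (y i))| := by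
  classical
  set Λ : Finset (List (ℕ × ℕ)) := Finset.univ.biUnion fun i => (y i).support with hΛ
  have hmem : ∀ i w, w ∉ Λ → y i w = 0 := by
    intro i w hw
    by_contra hne
    exact hw (Finset.mem_biUnion.2 ⟨i, Finset.mem_univ _, Finsupp.mem_support_iff.2 hne⟩)
  have hΛok : ∀ w ∈ Λ, HP w ∧ OK w := by
    intro w hw
    obtain ⟨i, -, hi⟩ := Finset.mem_biUnion.1 hw
    exact hy i w hi
  set c : Fin (r + 1) → ℕ → ℚ :=
    fun i K => ∑ w ∈ Λ, y i w * Pool.Agent.TH507.WG.cf 1 w K with hc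
  have hval : ∀ i n, valW n (y i) = ∑ w ∈ Λ, (y i w : ℝ) * mz (ar n w) := by
    intro i n
    unfold valW
    rw [Finsupp.linearCombination_apply, Finsupp.sum]
    have hsub : (y i).support ⊆ Λ := fun w hw =>
      Finset.mem_biUnion.2 ⟨i, Finset.mem_univ _, hw⟩
    rw [Finset.sum_subset hsub fun w _ hw => by
      rw [Finsupp.notMem_support_iff.1 hw, zero_smul]]
    exact Finset.sum_congr rfl fun w _ => by rw [Rat.smul_def]
  have hT : ∀ i, Tail (fun k => (c i k : ℝ)) (fun n => valW n (y i)) := by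
    intro i
    have h1 : Tail (fun k => ∑ w ∈ Λ, (y i w : ℝ) * (Pool.Agent.TH507.WG.cf 1 w k : ℝ))
        (fun n => ∑ w ∈ Λ, (y i w : ℝ) * mz (ar n w)) :=
      tail_sum Λ (fun w k => (y i w : ℝ) * (Pool.Agent.TH507.WG.cf 1 w k : ℝ))
        (fun w n => (y i w : ℝ) * mz (ar n w)) fun w hw => (tail_word w (hΛok w hw).1).mul _
    have h2 : (fun k => (c i k : ℝ)) =
        fun k => ∑ w ∈ Λ, (y i w : ℝ) * (Pool.Agent.TH507.WG.cf 1 w k : ℝ) := by
      funext k
      rw [hc]
      push_cast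
      rfl
    have h3 : (fun n => valW n (y i)) = fun n => ∑ w ∈ Λ, (y i w : ℝ) * mz (ar n w) :=
      funext fun n => hval i n
    rw [h2, h3]
    exact h1
  have hc0 : c 0 1 ≠ 0 := by
    rw [hc]
    simp only
    intro h1
    apply h0
    have hsub : (y 0).support ⊆ Λ := fun w hw =>
      Finset.mem_biUnion.2 ⟨0, Finset.mem_univ _, hw⟩
    refine Eq.trans ?_ h1
    rw [Finsupp.sum, Finset.sum_subset hsub fun w _ hw => by
      rw [Finsupp.notMem_support_iff.1 hw, ite_self]]
    refine Finset.sum_congr rfl fun w hw => ?_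
    rw [cf_at_one w (hΛok w hw).1]
    split_ifs
    · rw [mul_one]
    · rw [mul_zero]
  obtain ⟨T, hT0, hTT⟩ := nvT Λ hΛok (((l : ℝ) * ((r : ℝ) + 1)) ^ 2)
  refine ⟨Real.exp T, Real.one_lt_exp_iff.2 hT0, fun C B hB => ?_⟩
  obtain ⟨n0, hn0⟩ := mainB β hβ hβi c (fun i n => valW n (y i)) hT hc0 T hT0.le (by
    intro s hs h hh hlog b hb
    obtain ⟨K, hK1, hKs, hco, -, hne⟩ := hTT s hs h hh hlog (fun w => ((∑ i, b i * y i w : ℚ) : ℝ))
      (by
      by_contra hcon
      push Not at hcon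
      apply hb
      have h1 : ∑ i, b i • y i = 0 := by
        ext w
        rw [Finsupp.finsetSum_apply, Finsupp.zero_apply]
        by_cases hw : w ∈ Λ
        · have h2 : ∑ i, b i * y i w = 0 := by exact_mod_cast hcon w hw
          rw [← h2]
          exact Finset.sum_congr rfl fun i _ => by rw [Finsupp.smul_apply, smul_eq_mul]
        · exact Finset.sum_eq_zero fun i _ => by
            rw [Finsupp.smul_apply, hmem i w hw, smul_zero]
      funext i
      exact Fintype.linearIndependent_iff.1 hli b h1 i)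
    refine ⟨K, hK1, hKs, hco, ?_⟩
    intro h1
    apply hne
    have h2 : ∑ w ∈ Λ, (∑ i, b i * y i w) * Pool.Agent.TH507.WG.cf 1 w K = 0 := by
      rw [← h1, hc]
      simp only [Finset.sum_mul, Finset.mul_sum]
      rw [Finset.sum_comm]
      refine Finset.sum_congr rfl fun i _ => Finset.sum_congr rfl fun w _ => ?_
      ring
    exact_mod_cast h2) C B hB
  refine ⟨n0, fun n hn H hH1 hH2 q hq hqH => hn0 n hn H ?_ hH2 q hq hqH⟩
  rw [mul_comm, Real.exp_nat_mul]
  exact hH1

end Pool.Agent.K1H90.NV
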