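import Pool.Agent.K1H90.NV.Tw
import Pool.Agent.K1H34.Had.PAP
import Pool.Agent.Y777.CL.R

/-!
# Towers of primes `1` modulo `6` which do not divide a given number
-/

set_option autoImplicit false

namespace Pool.Agent.K1H90.NV

open Finset Pool.Agent.TH507.WG
open Pool.Agent.Y777.CL (P6)

lemma primes_many (N : ℕ) : ∃ X0 : ℝ, 1 ≤ X0 ∧ ∀ X : ℝ, X0 ≤ X → ∃ P : Finset ℕ, P.card = N ∧
    ∀ p ∈ P, p.Prime ∧ p ≡ 1 [MOD 6] ∧ X < p ∧ (p : ℝ) ≤ X ^ 2 := by
  classical
  obtain ⟨y0, hy0⟩ := Pool.Agent.K1H34.Had.prime_ap 1 1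
  have h1 : ∀ y : ℕ, y0 + 500 ≤ y → ∃ p : ℕ, p.Prime ∧ p ≡ 1 [MOD 6] ∧ p ≤ y ∧ y < 2 * p := by
    intro y hy
    have hlog : 6 ≤ Real.log y := by
      rw [Real.le_log_iff_exp_le (by exact_mod_cast (by omega : 0 < y))]
      have h2 : Real.exp 6 = Real.exp 1 ^ 6 := by
        rw [← Real.exp_nat_mul]
        norm_num
      have h3 := Real.exp_one_lt_d9
      have h4 : Real.exp 1 ^ 6 ≤ (2.8 : ℝ) ^ 6 :=
        pow_le_pow_left₀ (Real.exp_pos 1).le (by linarith) 6
      have h5 : (500 : ℝ) ≤ y := by exact_mod_cast (by omega : 500 ≤ y)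
      rw [h2]
      refine h4.trans (le_trans ?_ h5)
      norm_num
    obtain ⟨p, hp1, hp2, hp3, hp4⟩ := hy0 y (by omega) 6 (by norm_num) (by
      rw [pow_one]
      exact_mod_cast hlog) 1 (by norm_num) (by norm_num)
    refine ⟨p, hp1, hp2, hp3, ?_⟩
    rw [pow_one] at hp4
    have hy1 : (0 : ℝ) < y := by exact_mod_cast (by omega : 0 < y)
    have h5 : (y : ℝ) / Real.log y ≤ y / 6 :=
      div_le_div_of_nonneg_left hy1.le (by norm_num) hlog
    have h6 : (y : ℝ) < 2 * p := by linarith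
    exact_mod_cast h6
  choose! g hg using h1
  refine ⟨2 * 4 ^ N + y0 + 500, ?_, fun X hX => ?_⟩
  · have : (0 : ℝ) ≤ 2 * 4 ^ N := by positivity
    have h2 : (0 : ℝ) ≤ y0 := Nat.cast_nonneg _
    linarith
  set x : ℕ := ⌈X⌉₊ with hx
  have h4N : (0 : ℝ) ≤ 2 * 4 ^ N := by positivity
  have hy0' : (0 : ℝ) ≤ y0 := Nat.cast_nonneg _
  have hXx : X ≤ x := Nat.le_ceil X
  have hX1 : 1 ≤ X := by linarith
  have hx500 : y0 + 500 ≤ x := by
    have h2 : ((y0 + 500 : ℕ) : ℝ) ≤ x := by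
      push_cast
      linarith
    exact_mod_cast h2
  have hbig : ∀ i : ℕ, y0 + 500 ≤ x * 4 ^ (i + 1) := fun i =>
    hx500.trans (Nat.le_mul_of_pos_right _ (by positivity))
  have hmono : StrictMono fun i : ℕ => g (x * 4 ^ (i + 1)) := by
    refine strictMono_nat_of_lt_succ fun i => ?_
    have h2 := (hg _ (hbig i)).2.2.1
    have h3 := (hg _ (hbig (i + 1))).2.2.2
    have h4 : x * 4 ^ (i + 1 + 1) = 4 * (x * 4 ^ (i + 1)) := by ring
    rw [h4] at h3 ⊢
    omega
  refine ⟨(range N).image fun i => g (x * 4 ^ (i + 1)), ?_, fun p hp => ?_⟩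
  · rw [card_image_of_injective _ hmono.injective, card_range]
  · obtain ⟨i, hi, rfl⟩ := mem_image.1 hp
    rw [mem_range] at hi
    obtain ⟨h2, h3, h4, h5⟩ := hg _ (hbig i)
    refine ⟨h2, h3, ?_, ?_⟩
    · have h6 : x * 4 ≤ x * 4 ^ (i + 1) :=
        Nat.mul_le_mul_left x (Nat.le_self_pow (by omega) 4)
      have h7 : x < g (x * 4 ^ (i + 1)) := by omega
      have h8 : (x : ℝ) < g (x * 4 ^ (i + 1)) := by exact_mod_cast h7
      linarith
    · have h6 : ((g (x * 4 ^ (i + 1)) : ℕ) : ℝ) ≤ x * 4 ^ N := by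
        have h7 : g (x * 4 ^ (i + 1)) ≤ x * 4 ^ N :=
          h4.trans (Nat.mul_le_mul_left x (Nat.pow_le_pow_right (by norm_num) (by omega)))
        exact_mod_cast h7
      have h7 : (x : ℝ) ≤ 2 * X := by
        have := (Nat.ceil_lt_add_one (by linarith : 0 ≤ X)).le
        linarith
      have h8 : (x : ℝ) * 4 ^ N ≤ 2 * X * 4 ^ N := mul_le_mul_of_nonneg_right h7 (by positivity)
      have h9 : 2 * X * 4 ^ N ≤ X ^ 2 := by
        have h10 : 2 * 4 ^ N ≤ X := by linarith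
        have h11 : X * (2 * 4 ^ N) ≤ X * X := mul_le_mul_of_nonneg_left h10 (by linarith)
        calc 2 * X * 4 ^ N = X * (2 * 4 ^ N) := by ring
          _ ≤ X * X := h11
          _ = X ^ 2 := by ring
      linarith

/-- few large primes divide `h` -/
lemma few_div {h : ℕ} (hh : 1 ≤ h) {u y : ℝ} (hu : 0 < u) (hlog : Real.log h ≤ y * u)
    (D : Finset ℕ) (hD : ∀ p ∈ D, p.Prime ∧ u < Real.log p ∧ p ∣ h) : (D.card : ℝ) ≤ y := by
  have h1 : ∏ p ∈ D, p ≤ h := by
    refine Nat.le_of_dvd hh ?_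
    exact Finset.prod_primes_dvd h (fun p hp => (hD p hp).1.prime) fun p hp => (hD p hp).2.2
  have h2 : Real.log ((∏ p ∈ D, p : ℕ) : ℝ) ≤ Real.log h :=
    Real.log_le_log (by exact_mod_cast prod_pos fun p hp => (hD p hp).1.pos) (by exact_mod_cast h1)
  have h3 : Real.log ((∏ p ∈ D, p : ℕ) : ℝ) = ∑ p ∈ D, Real.log p := by
    push_cast
    rw [Real.log_prod]
    intro p hp
    have := (hD p hp).1.pos
    positivity
  have h4 : (D.card : ℝ) * u ≤ ∑ p ∈ D, Real.log p := by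
    rw [← nsmul_eq_mul]
    exact card_nsmul_le_sum _ _ _ fun p hp => (hD p hp).2.1.le
  have h5 : (D.card : ℝ) * u ≤ y * u := by linarith
  exact le_of_mul_le_mul_right h5 hu

/-- **towers** -/
theorem tower (A R : ℕ) : ∀ t : ℕ, ∀ c0 : ℝ, ∃ T : ℝ, 0 < T ∧ ∀ s : ℝ, T ≤ s → ∀ h : ℕ, 1 ≤ h →
    Real.log h ≤ c0 * s → ∃ L : List (Finset ℕ), L.length = t ∧ Tow A R L ∧
      ∀ K, Cl A L K → Real.log K ≤ s ∧ P6 K ∧ Nat.Coprime h K := by
  classical
  intro t
  induction t with
  | zero =>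
    intro c0
    refine ⟨1, one_pos, fun s hs h hh _ => ⟨[], rfl, trivial, fun K hK => ?_⟩⟩
    rw [Cl_nil] at hK
    subst hK
    refine ⟨?_, fun p hp hd => absurd (Nat.dvd_one.1 hd) hp.ne_one, Nat.coprime_one_right h⟩
    rw [Nat.cast_one, Real.log_one]
    linarith
  | succ t ih =>
    intro c0
    set E : ℝ := 4 * ((A : ℝ) + 1) with hE
    have hA0 : (0 : ℝ) ≤ A := Nat.cast_nonneg A
    have hE4 : 4 ≤ E := by
      rw [hE]
      linarith
    have hE0 : 0 < E := by linarith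
    obtain ⟨T1, hT1, hT1s⟩ := ih (c0 * E)
    set N : ℕ := R + 1 + ⌈c0 * E⌉₊ with hN
    obtain ⟨X0, hX0, hX0s⟩ := primes_many N
    refine ⟨E * T1 + E * Real.log X0 + 1, ?_, fun s hs h hh hlog => ?_⟩
    · have h1 : 0 ≤ Real.log X0 := Real.log_nonneg hX0
      positivity
    have hlX : 0 ≤ Real.log X0 := Real.log_nonneg hX0
    set u : ℝ := s / E with hu
    have hsu : s = E * u := by
      rw [hu]
      field_simp
    have hu1 : T1 ≤ u := by
      rw [hu, le_div_iff₀ hE0]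
      have : 0 ≤ E * Real.log X0 := by positivity
      linarith
    have hu2 : Real.log X0 ≤ u := by
      rw [hu, le_div_iff₀ hE0]
      have : 0 ≤ E * T1 := by positivity
      linarith
    have hu0 : 0 < u := lt_of_lt_of_le hT1 hu1
    obtain ⟨L, hL1, hL2, hL3⟩ := hT1s u hu1 h hh (by
      rw [hsu] at hlog
      linarith)
    obtain ⟨P, hP1, hP2⟩ := hX0s (Real.exp u) (by
      rw [← Real.log_le_iff_le_exp (by linarith)]
      exact hu2)
    have hPlog : ∀ p ∈ P, u < Real.log p ∧ Real.log p ≤ 2 * u := by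
      intro p hp
      obtain ⟨h1, -, h3, h4⟩ := hP2 p hp
      have hp0 : (0 : ℝ) < p := by exact_mod_cast h1.pos
      refine ⟨(Real.lt_log_iff_exp_lt hp0).2 h3, ?_⟩
      rw [Real.log_le_iff_le_exp hp0]
      refine h4.trans (le_of_eq ?_)
      rw [← Real.exp_nat_mul]
      norm_num
    have hfew := few_div hh (u := u) (y := c0 * E) hu0 (by
      rw [hsu] at hlog
      linarith) (P.filter fun p => p ∣ h) (fun p hp => by
        rw [mem_filter] at hp
        exact ⟨(hP2 p hp.1).1, (hPlog p hp.1).1, hp.2⟩)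
    have hfew2 : (P.filter fun p => p ∣ h).card ≤ ⌈c0 * E⌉₊ := by
      have h1 := hfew.trans (Nat.le_ceil (c0 * E))
      exact_mod_cast h1
    have hcard := card_filter_add_card_filter_not (s := P) (fun p => p ∣ h)
    refine ⟨(P.filter fun p => ¬ p ∣ h) :: L, by rw [List.length_cons, hL1], ?_, ?_⟩
    · rw [Tow_cons]
      refine ⟨hL2, by omega, fun p hp => ?_⟩
      rw [mem_filter] at hp
      refine ⟨(hP2 p hp.1).1, fun K hK => ?_⟩
      have h1 := (hL3 K hK).1
      have h2 := (hPlog p hp.1).1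
      have hK1 := Cl_pos hL2 K hK
      have h3 : Real.log K < Real.log p := lt_of_le_of_lt h1 h2
      have h4 := (Real.log_lt_log_iff (by exact_mod_cast hK1)
        (by exact_mod_cast (hP2 p hp.1).1.pos)).1 h3
      exact_mod_cast h4
    · intro K hK
      rw [Cl_cons] at hK
      obtain ⟨p, hp, e, he, K', hK', rfl⟩ := hK
      rw [mem_filter] at hp
      obtain ⟨h1, h2, h3⟩ := hL3 K' hK'
      obtain ⟨hpp, hp6, -, -⟩ := hP2 p hp.1
      have hK1 := Cl_pos hL2 K' hK'
      refine ⟨?_, ?_, ?_⟩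
      · push_cast
        rw [Real.log_mul (by
          have := hpp.pos
          positivity) (by
          have : (0 : ℝ) < K' := by exact_mod_cast hK1
          exact this.ne'), Real.log_pow]
        have h4 : (e : ℝ) ≤ A := by exact_mod_cast he
        have h5 : 0 ≤ Real.log p := by linarith [(hPlog p hp.1).1]
        have h6 : (e : ℝ) * Real.log p ≤ A * (2 * u) :=
          mul_le_mul h4 (hPlog p hp.1).2 h5 hA0
        have h7 : s = 4 * (A * u) + 4 * u := by
          rw [hsu, hE]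
          ring
        have h8 : 0 ≤ A * u := by positivity
        linarith
      · intro q hq hqd
        rcases (Nat.Prime.dvd_mul hq).1 hqd with h4 | h4
        · have h5 := (Nat.prime_dvd_prime_iff_eq hq hpp).1 (hq.dvd_of_dvd_pow h4)
          rw [h5]
          exact hp6
        · exact h2 q hq h4
      · refine Nat.Coprime.mul_right ?_ h3
        exact Nat.Coprime.pow_right _
          (Nat.coprime_comm.1 ((Nat.Prime.coprime_iff_not_dvd hpp).2 hp.2))

end Pool.Agent.K1H90.NV
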