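import Pool.Agent.K1H90.NV.Ind
import Pool.Agent.K1H90.NV.Pr

/-!
# Quantitative independence of the coefficient functions of all words
-/

set_option autoImplicit false

namespace Pool.Agent.K1H90.NV

open Finset Pool.Agent.TH507.WG
open Pool.Agent.Y777.CL (P6)

lemma pa_length (v : List (ℕ × ℕ)) : (pa v).length ≤ v.length := by
  induction v with
  | nil => exact le_rfl
  | cons x l ih =>
    by_cases hx : x.1 = 0
    · rw [pa_fix l hx, List.length_cons]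
      omega
    · rw [pa_pos l hx, List.length_cons, List.length_cons]
      omega

/-- **quantitative independence** -/
theorem nvT (Λ : Finset (List (ℕ × ℕ))) (hΛ : ∀ v ∈ Λ, HP v ∧ OK v) (c0 : ℝ) :
    ∃ T : ℝ, 0 < T ∧ ∀ s : ℝ, T ≤ s → ∀ h : ℕ, 1 ≤ h → Real.log h ≤ c0 * s →
    ∀ x : List (ℕ × ℕ) → ℝ, (∃ v ∈ Λ, x v ≠ 0) →
      ∃ K : ℕ, 1 ≤ K ∧ Real.log K ≤ s ∧ Nat.Coprime h K ∧ P6 K ∧
        ∑ v ∈ Λ, x v * ((cf 1 v K : ℚ) : ℝ) ≠ 0 := by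
  classical
  obtain ⟨A, hA⟩ : ∃ A : ℕ, ∀ v ∈ Λ, ∀ z ∈ v, z.1 ≤ A := by
    refine ⟨Λ.sup fun w => (w.map Prod.fst).sum, fun w hw z hz => ?_⟩
    refine (List.single_le_sum (l := w.map Prod.fst) (fun _ _ => Nat.zero_le _) z.1
      (List.mem_map_of_mem hz)).trans ?_
    exact le_sup (f := fun w : List (ℕ × ℕ) => (w.map Prod.fst).sum) hw
  obtain ⟨M, hM⟩ : ∃ M : ℕ, ∀ v ∈ Λ, ∀ z ∈ v, z.2 ≤ M := by
    refine ⟨Λ.sup fun w => (w.map Prod.snd).sum, fun w hw z hz => ?_⟩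
    refine (List.single_le_sum (l := w.map Prod.snd) (fun _ _ => Nat.zero_le _) z.2
      (List.mem_map_of_mem hz)).trans ?_
    exact le_sup (f := fun w : List (ℕ × ℕ) => (w.map Prod.snd).sum) hw
  set ℓ : ℕ := Λ.sup List.length with hℓ
  obtain ⟨R, hR⟩ := exists_Zek M ℓ Λ.card
  obtain ⟨T, hT, hTs⟩ := tower A R ℓ c0
  refine ⟨T, hT, fun s hs h hh hlog x hx => ?_⟩
  obtain ⟨L, hL1, hL2, hL3⟩ := hTs s hs h hh hlog
  by_contra hcon
  push Not at hcon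
  obtain ⟨v, hv, hxv⟩ := hx
  refine hxv (indP A M ℓ Λ.card R hR L hL2 Λ le_rfl (fun w hw => ?_) x (fun K hK => ?_) v hv)
  · have h1 : w.length ≤ ℓ := le_sup (f := List.length) hw
    refine ⟨⟨(hΛ w hw).1, (hΛ w hw).2, h1, fun z hz => ⟨hA w hw z hz, hM w hw z hz⟩⟩, ?_⟩
    rw [hL1]
    exact (pa_length w).trans h1
  · obtain ⟨h1, h2, h3⟩ := hL3 K hK
    exact hcon K (Cl_pos hL2 K hK) h1 h3 h2

end Pool.Agent.K1H90.NV
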