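import Pool.Agent.TH507.WG.C
import Pool.Agent.Y760.ZG.Mz

/-!
# Towers of primes, and the coefficient functions of words at `p ^ a K` with a large prime `p`
-/

set_option autoImplicit false

namespace Pool.Agent.K1H90.NV

open Finset Pool.Agent.TH507.WG

/-- the class of a tower (the top level is the head of the list) -/
def Cl (A : ℕ) : List (Finset ℕ) → ℕ → Prop
  | [], K => K = 1
  | P :: L, K => ∃ p ∈ P, ∃ e, e ≤ A ∧ ∃ K', Cl A L K' ∧ K = p ^ e * K'

/-- towers: every level has more than `R` primes, larger than all elements of the class below -/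
def Tow (A R : ℕ) : List (Finset ℕ) → Prop
  | [] => True
  | P :: L => Tow A R L ∧ R < P.card ∧ ∀ p ∈ P, p.Prime ∧ ∀ K, Cl A L K → K < p

lemma Cl_nil (A K : ℕ) : Cl A [] K ↔ K = 1 := Iff.rfl

lemma Cl_cons (A : ℕ) (P : Finset ℕ) (L : List (Finset ℕ)) (K : ℕ) :
    Cl A (P :: L) K ↔ ∃ p ∈ P, ∃ e, e ≤ A ∧ ∃ K', Cl A L K' ∧ K = p ^ e * K' := Iff.rfl

lemma Tow_cons (A R : ℕ) (P : Finset ℕ) (L : List (Finset ℕ)) :
    Tow A R (P :: L) ↔ Tow A R L ∧ R < P.card ∧ ∀ p ∈ P, p.Prime ∧ ∀ K, Cl A L K → K < p := Iff.rfl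

lemma Cl_one {A R : ℕ} {L : List (Finset ℕ)} (h : Tow A R L) : Cl A L 1 := by
  induction L with
  | nil => rfl
  | cons P L ih =>
    rw [Tow_cons] at h
    obtain ⟨p, hp⟩ := Finset.card_pos.1 (lt_of_le_of_lt (Nat.zero_le R) h.2.1)
    exact ⟨p, hp, 0, Nat.zero_le _, 1, ih h.1, by simp⟩

lemma Cl_pos {A R : ℕ} {L : List (Finset ℕ)} (h : Tow A R L) : ∀ K, Cl A L K → 1 ≤ K := by
  induction L with
  | nil =>
    intro K hK
    rw [Cl_nil] at hK
    omega
  | cons P L ih =>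
    intro K hK
    rw [Tow_cons] at h
    obtain ⟨p, hp, e, he, K', hK', rfl⟩ := hK
    have h1 := ih h.1 K' hK'
    have h2 : 0 < p ^ e := pow_pos (h.2.2 p hp).1.pos e
    exact Nat.mul_pos h2 h1

lemma Cl_dvd {A R : ℕ} {L : List (Finset ℕ)} (h : Tow A R L) : ∀ K D, Cl A L K → D ∣ K →
    Cl A L D := by
  induction L with
  | nil =>
    intro K D hK hD
    rw [Cl_nil] at hK ⊢
    rw [hK] at hD
    exact Nat.dvd_one.1 hD
  | cons P L ih =>
    intro K D hK hD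
    rw [Tow_cons] at h
    obtain ⟨p, hp, e, he, K', hK', rfl⟩ := hK
    obtain ⟨x, hx⟩ := exists_dvd_and_dvd_of_dvd_mul hD
    obtain ⟨y, hxe, hy, rfl⟩ := hx
    obtain ⟨g, hg, rfl⟩ := (Nat.dvd_prime_pow (h.2.2 p hp).1).1 hxe
    exact ⟨p, hp, g, hg.trans he, y, ih h.1 K' y hK' hy, rfl⟩

/-! ## words -/

lemma T1_primes (w : List (ℕ × ℕ)) : ∀ m K, K ≠ 0 → T 1 w m K ≠ 0 →
    ∀ p : ℕ, p.Prime → p ∣ K → p < m := by
  induction w with
  | nil =>
    intro m K hK hT p hp hpK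
    rw [T_nil] at hT
    split_ifs at hT with h1
    · rw [h1] at hpK
      exact absurd (Nat.dvd_one.1 hpK) hp.ne_one
    · exact absurd rfl hT
  | cons x l ih =>
    intro m K hK hT p hp hpK
    rw [T_cons] at hT
    obtain ⟨j, hj, hne⟩ := exists_ne_zero_of_sum_ne_zero hT
    rw [lo_one, mem_Ico] at hj
    split_ifs at hne with hd
    · have hjK : K / j ^ x.1 ≠ 0 := by
        intro h0
        have h1 := Nat.div_mul_cancel hd
        rw [h0, zero_mul] at h1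
        exact hK h1.symm
      have hT1 : T 1 l j (K / j ^ x.1) ≠ 0 := by
        intro h0
        rw [h0, zero_div] at hne
        exact hne rfl
      have h1 := Nat.div_mul_cancel hd
      rw [← h1] at hpK
      rcases (Nat.Prime.dvd_mul hp).1 hpK with h2 | h2
      · exact (ih j _ hjK hT1 p hp h2).trans hj.2
      · exact (Nat.le_of_dvd hj.1 (hp.dvd_of_dvd_pow h2)).trans_lt hj.2
    · exact absurd rfl hne

/-- a term whose variable is not divisible by `p` vanishes -/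
lemma term_zero (l : List (ℕ × ℕ)) {a e p K' j : ℕ} (he : 1 ≤ e) (ha : 1 ≤ a) (hp : p.Prime)
    (hK1 : 1 ≤ K') (hK' : K' < p) (hj : 1 ≤ j) (hpj : ¬ p ∣ j) (hd : j ^ a ∣ p ^ e * K') :
    T 1 l j (p ^ e * K' / j ^ a) = 0 := by
  by_contra hne
  have hK0 : p ^ e * K' ≠ 0 := (Nat.mul_pos (pow_pos hp.pos e) hK1).ne'
  have h1 := Nat.div_mul_cancel hd
  have h0 : p ^ e * K' / j ^ a ≠ 0 := by
    intro h0
    rw [h0, zero_mul] at h1
    exact hK0 h1.symm
  have h2 : p ∣ p ^ e * K' / j ^ a := by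
    have h3 : p ∣ p ^ e * K' / j ^ a * j ^ a := by
      rw [h1]
      exact dvd_mul_of_dvd_left (dvd_pow_self p (by omega)) _
    rcases (Nat.Prime.dvd_mul hp).1 h3 with h4 | h4
    · exact h4
    · exact absurd (hp.dvd_of_dvd_pow h4) hpj
  have h3 := T1_primes l j _ h0 hne p hp h2
  have h4 : Nat.Coprime (j ^ a) (p ^ e) :=
    Nat.Coprime.pow _ _ (Nat.coprime_comm.1 ((Nat.Prime.coprime_iff_not_dvd hp).2 hpj))
  have h5 : j ^ a ∣ K' := h4.dvd_of_dvd_mul_left hd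
  have h6 := Nat.le_of_dvd hK1 h5
  have h7 : j ≤ j ^ a := Nat.le_self_pow (by omega) j
  omega

/-- exponent too small -/
lemma peel_lt (x : ℕ × ℕ) (l : List (ℕ × ℕ)) {e p K' : ℕ} (he : 1 ≤ e) (hx : e < x.1)
    (hp : p.Prime) (hK1 : 1 ≤ K') (hK' : K' < p) : cf 1 (x :: l) (p ^ e * K') = 0 := by
  rw [cf, T_cons, lo_one]
  refine sum_eq_zero fun j hj => ?_
  rw [mem_Ico] at hj
  split_ifs with hd
  · by_cases hpj : p ∣ j
    · exfalso
      have h1 : p ^ x.1 ∣ p ^ e * K' := (pow_dvd_pow_of_dvd hpj _).trans hd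
      have h2 : p ^ (e + 1) ∣ p ^ e * K' := (pow_dvd_pow p hx).trans h1
      rw [pow_succ] at h2
      have h3 : p ∣ K' := Nat.dvd_of_mul_dvd_mul_left (pow_pos hp.pos e) h2
      have h4 := Nat.le_of_dvd hK1 h3
      omega
    · rw [term_zero l he (by omega) hp hK1 hK' hj.1 hpj hd, zero_div]
  · rfl

/-- **the coefficient at `p ^ a K'`** -/
lemma peel_eq (x : ℕ × ℕ) (l : List (ℕ × ℕ)) {p K' : ℕ} (hx : 1 ≤ x.1)
    (hp : p.Prime) (hK1 : 1 ≤ K') (hK' : K' < p) : cf 1 (x :: l) (p ^ x.1 * K') =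
      ∑ d ∈ Icc 1 K', if d ^ x.1 ∣ K' then T 1 l (p * d) (K' / d ^ x.1) / ((p * d : ℕ) : ℚ) ^ x.2
        else 0 := by
  set F : ℕ → ℚ := fun j => if j ^ x.1 ∣ p ^ x.1 * K' then
    T 1 l j (p ^ x.1 * K' / j ^ x.1) / (j : ℚ) ^ x.2 else 0 with hF
  have h1 : cf 1 (x :: l) (p ^ x.1 * K') = ∑ j ∈ Ico 1 (p ^ x.1 * K' + 1), F j := by
    rw [cf, T_cons, lo_one]
  have h2 : ∑ d ∈ Icc 1 K', (if d ^ x.1 ∣ K' then
      T 1 l (p * d) (K' / d ^ x.1) / ((p * d : ℕ) : ℚ) ^ x.2 else 0) =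
      ∑ j ∈ (Icc 1 K').image (fun d => p * d), F j := by
    rw [sum_image (fun a _ b _ hab => Nat.eq_of_mul_eq_mul_left hp.pos hab)]
    refine sum_congr rfl fun d hd => ?_
    have hpx : 0 < p ^ x.1 := pow_pos hp.pos _
    have e1 : ((p * d) ^ x.1 ∣ p ^ x.1 * K') ↔ d ^ x.1 ∣ K' := by
      rw [mul_pow]
      exact Nat.mul_dvd_mul_iff_left hpx
    have e2 : p ^ x.1 * K' / (p * d) ^ x.1 = K' / d ^ x.1 := by
      rw [mul_pow]
      exact Nat.mul_div_mul_left _ _ hpx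
    rw [hF]
    simp only [e1, e2]
  rw [h1, h2]
  symm
  refine sum_subset ?_ ?_
  · intro j hj
    obtain ⟨d, hd, rfl⟩ := mem_image.1 hj
    rw [mem_Icc] at hd
    rw [mem_Ico]
    refine ⟨Nat.mul_pos hp.pos hd.1, ?_⟩
    have h3 : p * d ≤ p ^ x.1 * K' :=
      Nat.mul_le_mul (Nat.le_self_pow (by omega) p) hd.2
    omega
  · intro j hj hnj
    rw [mem_Ico] at hj
    rw [hF]
    simp only
    split_ifs with hd
    · by_cases hpj : p ∣ j
      · exfalso
        obtain ⟨d, rfl⟩ := hpj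
        apply hnj
        rw [mem_image]
        refine ⟨d, ?_, rfl⟩
        rw [mul_pow] at hd
        have h3 : d ^ x.1 ∣ K' := Nat.dvd_of_mul_dvd_mul_left (pow_pos hp.pos _) hd
        have h4 := Nat.le_of_dvd hK1 h3
        have h5 : d ≤ d ^ x.1 := Nat.le_self_pow (by omega) d
        rw [mem_Icc]
        refine ⟨?_, h5.trans h4⟩
        rcases Nat.eq_zero_or_pos d with h6 | h6
        · rw [h6, mul_zero] at hj
          omega
        · exact h6
      · rw [term_zero l hx hx hp hK1 hK' hj.1 hpj hd, zero_div]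
    · rfl

end Pool.Agent.K1H90.NV
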